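import Pool.Agent.helper32.EXC.Spec11

set_option autoImplicit false

open Finset

namespace Pool.Agent.EXC

theorem T11WA8_st {F : Type} [Field F] (k : Fin 15) (t : ℤ) (v : Fin 14 → ℤ) :
    st8 k (t : F) (fun i => (v i : F)) = fun i => (sz8 k t v i : F) := by
  funext j
  unfold st8 sz8
  split_ifs <;> push_cast <;> ring

theorem T11WA8 (hT11LA8 : T11LA8_stmt) (hT11XGS : T11XGS_stmt) : T11WA8_stmt := by
  intro _ F _ hα l l'
  have hX : ∀ (k : Fin 15) (t : F), IsX CartanMatrix.E₈ (E CartanMatrix.E₈ (lt8 k)) t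
      (XG CartanMatrix.E₈ (lt8 k) t) ∧ XG CartanMatrix.E₈ (lt8 k) t ∈ GE CartanMatrix.E₈ F ∧
      (XG CartanMatrix.E₈ (lt8 k) t)⁻¹ = XG CartanMatrix.E₈ (lt8 k) (-t) := fun k t =>
    hT11XGS 8 CartanMatrix.E₈ F hα (lt8 k) (lt8_root k) t
  have hcons : ∀ (p : Fin 15 × ℤ) (l : List (Fin 15 × ℤ)),
      gw8 F (p :: l) = XG CartanMatrix.E₈ (lt8 p.1) (p.2 : F) * gw8 F l := by
    intro p l
    unfold gw8
    rw [List.map_cons, List.prod_cons]
  have happ : ∀ l l' : List (Fin 15 × ℤ), gw8 F (l ++ l') = gw8 F l * gw8 F l' := by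
    intro l l'
    unfold gw8
    rw [List.map_append, List.prod_append]
  have hnil : gw8 F [] = 1 := by
    unfold gw8
    rw [List.map_nil, List.prod_nil]
  refine ⟨?_, ?_, happ l l', ?_, ?_⟩
  · induction l with
    | nil =>
      rw [hnil]
      exact one_mem _
    | cons p l ih =>
      rw [hcons]
      exact mul_mem (hX _ _).2.1 ih
  · induction l with
    | nil =>
      show gw8 F [] = (gw8 F [])⁻¹
      rw [hnil, inv_one]
    | cons p l ih =>
      have h1 : wi8 (p :: l) = wi8 l ++ [(p.1, -p.2)] := by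
        unfold wi8
        rw [List.map_cons, List.reverse_cons]
      rw [h1, happ, ih, hcons, hcons, hnil, mul_one, mul_inv_rev, (hX _ _).2.2]
      push_cast
      rfl
  · intro v
    induction l with
    | nil =>
      refine ⟨v, ?_⟩
      rw [hnil]
      rfl
    | cons p l ih =>
      obtain ⟨w, hw⟩ := ih
      refine ⟨st8 p.1 (p.2 : F) w, ?_⟩
      rw [hcons, LinearEquiv.mul_apply, hw, (hX _ _).1, hT11LA8]
  · intro v
    induction l with
    | nil =>
      rw [hnil]
      rfl
    | cons p l ih =>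
      rw [hcons, LinearEquiv.mul_apply, ih, (hX _ _).1, hT11LA8, T11WA8_st]
      rfl

end Pool.Agent.EXC
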